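import Pool.Agent.PChar823.Ent

set_option autoImplicit false

/-!
# From entropic multiples of rank functions to codes
-/

namespace Pool.Agent.L0h65.PC

open scoped ENNReal
open PChar823

section
variable {Ω β : Type} (P : PMF Ω)

theorem atom_congr' {β' : Type} (Y : Ω → β) (Y' : Ω → β') (ω : Ω)
    (h : ∀ ω', Y ω = Y ω' ↔ Y' ω = Y' ω') : atom P Y ω = atom P Y' ω := by
  classical
  rw [atom_eq, atom_eq]
  apply tsum_congr
  intro ω'
  by_cases h1 : Y ω = Y ω'
  · rw [if_pos h1, if_pos ((h ω').1 h1)]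
  · rw [if_neg h1, if_neg (fun h2 => h1 ((h ω').2 h2))]

theorem hasSum_toReal' : HasSum (fun ω => (P ω).toReal) 1 := by
  have h1 := ENNReal.hasSum_toReal (f := fun ω => P ω) (by rw [P.tsum_coe]; exact ENNReal.one_ne_top)
  rw [← ENNReal.tsum_toReal_eq (fun ω => P.apply_ne_top _), P.tsum_coe] at h1
  simpa using h1

/-- If all atoms have the same probability, then it is given by the entropy. -/
theorem const_atom' (hP : FiniteEntropy P) (Y : Ω → β) (κ : ℝ≥0∞) (v : ℕ) (hv : 0 < v)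
    (h : ∀ ω, P ω ≠ 0 → atom P Y ω = κ) (hent : entropy (P.map Y) = Real.log v) :
    κ = (v : ℝ≥0∞)⁻¹ := by
  have h1 := hasSum_entropy_map P Y hP
  have h2 : (fun ω => (P ω).toReal * (-Real.log (atom P Y ω).toReal)) =
      fun ω => (P ω).toReal * (-Real.log κ.toReal) := by
    funext ω
    by_cases h0 : P ω = 0
    · simp [h0]
    · rw [h ω h0]
  rw [h2] at h1
  have h3 := (hasSum_toReal' P).mul_right (-Real.log κ.toReal)
  have h4 := h1.unique h3
  rw [hent, one_mul] at h4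
  obtain ⟨ω₀, hω₀⟩ := P.support_nonempty
  have h0 : P ω₀ ≠ 0 := hω₀
  have hκ := h ω₀ h0
  have hpos : 0 < κ.toReal := by rw [← hκ]; exact atom_pos P Y h0
  have htop : κ ≠ ∞ := by rw [← hκ]; exact atom_ne_top P Y ω₀
  have hvR : (0 : ℝ) < v := by exact_mod_cast hv
  have h5 : Real.log κ.toReal = Real.log ((v : ℝ)⁻¹) := by
    rw [Real.log_inv]; linarith
  have h6 := Real.log_injOn_pos (Set.mem_Ioi.2 hpos) (Set.mem_Ioi.2 (inv_pos.mpr hvR)) h5
  have htop2 : ((v : ℝ≥0∞)⁻¹) ≠ ∞ := by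
    simp
    omega
  rw [← ENNReal.toReal_eq_toReal_iff' htop htop2, h6]
  simp

end

/-- the restriction of the family `X` to `A` -/
def res {n : ℕ} {Ω : Type} {β : Fin n → Type} (X : ∀ i, Ω → β i) (A : Finset (Fin n)) (ω : Ω) :
    ∀ i : {i // i ∈ A}, β i.1 := fun i => X i.1 ω

theorem res_eq {n : ℕ} {Ω : Type} {β : Fin n → Type} (X : ∀ i, Ω → β i) (A : Finset (Fin n))
    (ω ω' : Ω) : res X A ω = res X A ω' ↔ ∀ i ∈ A, X i ω = X i ω' := by
  constructor
  · intro h i hi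
    exact congrFun h ⟨i, hi⟩
  · intro h
    funext i
    exact h i.1 i.2

/-- A family of random variables whose entropy function is `log v` times `R`, and such that every
index lies in a three-point line for `R`, gives a code over `Fin v`. -/
theorem code_of_entropic {n : ℕ} {Ω : Type} (P : PMF Ω) (hP : FiniteEntropy P)
    (β : Fin n → Type) (X : ∀ i, Ω → β i) (v : ℕ) (hv : 2 ≤ v) (R : Finset (Fin n) → ℕ)
    (hent : ∀ A : Finset (Fin n), entropy (P.map (res X A)) = Real.log v * R A)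
    (hline : ∀ i : Fin n, ∃ j k : Fin n, R {i} = 1 ∧ R {j} = 1 ∧ R {k} = 1 ∧ R ({i} ∪ {j}) = 2 ∧
      R ({i} ∪ {k}) = 2 ∧ R ({j} ∪ {k}) = 2 ∧ R ({i} ∪ {j} ∪ {k}) = 2) :
    ∃ C : Set (Fin n → Fin v), C.Nonempty ∧
      (∀ i s, ∃ c ∈ C, c i = s) ∧
      (∀ A B : Finset (Fin n), R (A ∪ B) = R A + R B → ∀ c ∈ C, ∀ c' ∈ C,
        ∃ c'' ∈ C, (∀ i ∈ A, c'' i = c i) ∧ (∀ i ∈ B, c'' i = c' i)) ∧
      (∀ A B : Finset (Fin n), A ⊆ B → R A = R B → ∀ c ∈ C, ∀ c' ∈ C,
        (∀ i ∈ A, c i = c' i) → ∀ i ∈ B, c i = c' i) := by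
  classical
  have hv0 : 0 < v := by omega
  -- determination
  have F1 : ∀ A B : Finset (Fin n), A ⊆ B → R A = R B →
      (∀ x, P x ≠ 0 → atom P (res X A) x = atom P (res X B) x) ∧
      (∀ x y, P x ≠ 0 → P y ≠ 0 → (∀ i ∈ A, X i x = X i y) → ∀ i ∈ B, X i x = X i y) := by
    intro A B hAB hRAB
    obtain ⟨h1, h2⟩ := same_entropy P hP (res X A) (res X B) (fun x y h => by
      rw [res_eq] at h ⊢
      exact fun i hi => h i (hAB hi)) (by rw [hent A, hRAB, hent B])
    refine ⟨h1, ?_⟩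
    intro x y hx hy h
    rw [← res_eq X B]
    exact h2 x y hx hy ((res_eq X A x y).2 h)
  -- independence
  have F2 : ∀ A B : Finset (Fin n), R (A ∪ B) = R A + R B →
      (∀ x, P x ≠ 0 → atom P (res X (A ∪ B)) x = atom P (res X A) x * atom P (res X B) x) ∧
      (∀ x y, P x ≠ 0 → P y ≠ 0 → ∃ z, P z ≠ 0 ∧ (∀ i ∈ A, X i z = X i x) ∧
        (∀ i ∈ B, X i z = X i y)) := by
    intro A B hRAB
    obtain ⟨h1, h2⟩ := indep_of_entropy P hP (res X A) (res X B) (res X (A ∪ B)) (fun x y => by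
      rw [res_eq, res_eq, res_eq]
      constructor
      · intro h
        exact ⟨fun i hi => h i (Finset.mem_union_left _ hi),
          fun i hi => h i (Finset.mem_union_right _ hi)⟩
      · rintro ⟨h1, h2⟩ i hi
        rcases Finset.mem_union.1 hi with h | h
        · exact h1 i h
        · exact h2 i h) (by
        rw [hent (A ∪ B), hent A, hent B, hRAB]
        push_cast
        ring)
    refine ⟨h1, ?_⟩
    intro x y hx hy
    obtain ⟨z, hz, hz1, hz2⟩ := h2 x y hx hy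
    exact ⟨z, hz, (res_eq X A z x).1 hz1, (res_eq X B z y).1 hz2⟩
  have cpos : ∀ A x, P x ≠ 0 → atom P (res X A) x ≠ 0 := by
    intro A x hx h
    have := atom_pos P (res X A) hx
    rw [h] at this
    simp at this
  have tall : ∀ e : Fin n, ∀ x, P x ≠ 0 → atom P (res X {e}) x = (v : ℝ≥0∞)⁻¹ := by
    intro i
    obtain ⟨j, k, hi, hj, hk, hij, hik, hjk, hijk⟩ := hline i
    have a1 : ∀ x, P x ≠ 0 → atom P (res X {i}) x = atom P (res X {j}) x := by
      intro x hx
      have e2 := (F2 {i} {k} (by rw [hik, hi, hk])).1 x hx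
      have e3 := (F2 {j} {k} (by rw [hjk, hj, hk])).1 x hx
      have f2 := (F1 ({i} ∪ {k}) ({i} ∪ {j} ∪ {k}) (by
        intro e he
        simp only [Finset.mem_union, Finset.mem_singleton] at he ⊢
        tauto) (by rw [hik, hijk])).1 x hx
      have f3 := (F1 ({j} ∪ {k}) ({i} ∪ {j} ∪ {k}) (by
        intro e he
        simp only [Finset.mem_union, Finset.mem_singleton] at he ⊢
        tauto) (by rw [hjk, hijk])).1 x hx
      have : atom P (res X {i}) x * atom P (res X {k}) x =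
          atom P (res X {j}) x * atom P (res X {k}) x := by
        rw [← e2, ← e3, f2, f3]
      exact (ENNReal.mul_left_inj (cpos _ x hx) (atom_ne_top P _ x)).1 this
    have a2 : ∀ x y, P x ≠ 0 → P y ≠ 0 → atom P (res X {i}) x = atom P (res X {j}) y := by
      intro x y hx hy
      obtain ⟨z, hz, hz1, hz2⟩ := (F2 {i} {j} (by rw [hij, hi, hj])).2 x y hx hy
      have g1 : atom P (res X {i}) z = atom P (res X {i}) x := by
        have : res X {i} z = res X {i} x := (res_eq _ _ _ _).2 hz1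
        unfold atom; rw [this]
      have g2 : atom P (res X {j}) z = atom P (res X {j}) y := by
        have : res X {j} z = res X {j} y := (res_eq _ _ _ _).2 hz2
        unfold atom; rw [this]
      rw [← g1, ← g2]
      exact a1 z hz
    obtain ⟨x₀, hx₀⟩ := P.support_nonempty
    have hx₀' : P x₀ ≠ 0 := hx₀
    have a3 : ∀ x, P x ≠ 0 → atom P (res X {i}) x = atom P (res X {j}) x₀ :=
      fun x hx => a2 x x₀ hx hx₀'
    have a4 := const_atom' P hP (res X {i}) _ v hv0 a3 (by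
      have := hent {i}
      rw [hi, Nat.cast_one, mul_one] at this
      exact this)
    intro x hx
    rw [a3 x hx, a4]
  -- supports of the coordinates
  let Q : ∀ e : Fin n, PMF (β e) := fun e => P.map (X e)
  have hQx : ∀ (e : Fin n) (x : Ω), P x ≠ 0 → Q e (X e x) = (v : ℝ≥0∞)⁻¹ := by
    intro e x hx
    have h1 : Q e (X e x) = atom P (X e) x := rfl
    rw [h1, atom_congr' P (X e) (res X {e}) x (fun y => by rw [res_eq]; simp)]
    exact tall e x hx
  have hQs : ∀ (e : Fin n) (b : β e), Q e b ≠ 0 → ∃ x, P x ≠ 0 ∧ X e x = b := by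
    intro e b hb
    have h1 : b ∈ (P.map (X e)).support := hb
    rw [PMF.support_map] at h1
    obtain ⟨x, hx, hxb⟩ := h1
    exact ⟨x, hx, hxb⟩
  have hvne : (v : ℝ≥0∞) ≠ 0 := by
    simp
    omega
  have hcardV : ∀ e : Fin n, Nat.card {b : β e // Q e b ≠ 0} = v := by
    intro e
    have h1 : ∑' b : β e, Q e b = 1 := (Q e).tsum_coe
    have h2 : ∑' b : {b : β e // Q e b ≠ 0}, Q e b = 1 := by
      rw [← h1]
      exact tsum_subtype_eq_of_support_subset (f := fun b => Q e b) (s := {b | Q e b ≠ 0})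
        (fun b hb => hb)
    have h3 : ∀ b : {b : β e // Q e b ≠ 0}, Q e b = (v : ℝ≥0∞)⁻¹ := by
      rintro ⟨b, hb⟩
      obtain ⟨x, hx, rfl⟩ := hQs e b hb
      exact hQx e x hx
    rw [tsum_congr h3, ENNReal.tsum_const] at h2
    have h4 : (ENat.card {b : β e // Q e b ≠ 0} : ℝ≥0∞) = v := by
      have h5 : ((ENat.card {b : β e // Q e b ≠ 0} : ℝ≥0∞) * (v : ℝ≥0∞)⁻¹) * v = 1 * v := by rw [h2]
      rw [mul_assoc, ENNReal.inv_mul_cancel hvne (ENNReal.natCast_ne_top v), mul_one, one_mul] at h5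
      exact h5
    have h6 : ENat.card {b : β e // Q e b ≠ 0} = (v : ℕ) := by
      have : ((ENat.card {b : β e // Q e b ≠ 0} : ℕ∞) : ℝ≥0∞) = (((v : ℕ) : ℕ∞) : ℝ≥0∞) := by
        rw [h4]; simp
      exact_mod_cast this
    unfold Nat.card
    rw [ENat.card] at h6
    have h7 := congrArg ENat.toNat h6
    simpa using h7
  have hφ : ∀ e : Fin n, Nonempty ({b : β e // Q e b ≠ 0} ≃ Fin v) := by
    intro e
    haveI : Finite {b : β e // Q e b ≠ 0} := Nat.finite_of_card_ne_zero (by rw [hcardV]; omega)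
    exact ⟨Finite.equivFinOfCardEq (hcardV e)⟩
  have φ : ∀ e : Fin n, {b : β e // Q e b ≠ 0} ≃ Fin v := fun e => Classical.choice (hφ e)
  have hmem : ∀ (x : Ω), P x ≠ 0 → ∀ e, Q e (X e x) ≠ 0 := by
    intro x hx e
    rw [hQx e x hx]
    simp
  let enc : {x : Ω // P x ≠ 0} → Fin n → Fin v := fun x e => φ e ⟨X e x.1, hmem x.1 x.2 e⟩
  have henc : ∀ x y e, enc x e = enc y e ↔ X e x.1 = X e y.1 := by
    intro x y e
    constructor
    · intro h
      have := (φ e).injective h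
      exact congrArg Subtype.val this
    · intro h
      show φ e _ = φ e _
      congr 1
      exact Subtype.ext h
  have hsurj : ∀ (e : Fin n) (s : Fin v), ∃ x, enc x e = s := by
    intro e s
    obtain ⟨b, hb⟩ := (φ e).surjective s
    obtain ⟨x, hx, hxb⟩ := hQs e b.1 b.2
    refine ⟨⟨x, hx⟩, ?_⟩
    rw [← hb]
    show φ e _ = φ e b
    congr 1
    exact Subtype.ext hxb
  refine ⟨Set.range enc, ?_, ?_, ?_, ?_⟩
  · obtain ⟨x₀, hx₀⟩ := P.support_nonempty
    exact ⟨_, ⟨⟨x₀, hx₀⟩, rfl⟩⟩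
  · intro i s
    obtain ⟨x, hx⟩ := hsurj i s
    exact ⟨_, ⟨x, rfl⟩, hx⟩
  · rintro A B h _ ⟨x, rfl⟩ _ ⟨y, rfl⟩
    obtain ⟨z, hz, hz1, hz2⟩ := (F2 A B h).2 x.1 y.1 x.2 y.2
    refine ⟨_, ⟨⟨z, hz⟩, rfl⟩, ?_, ?_⟩
    · intro i hi
      rw [henc]; exact hz1 i hi
    · intro i hi
      rw [henc]; exact hz2 i hi
  · rintro A B hAB hRAB _ ⟨x, rfl⟩ _ ⟨y, rfl⟩ h i hi
    rw [henc]
    apply (F1 A B hAB hRAB).2 x.1 y.1 x.2 y.2 _ i hi
    intro i hi
    rw [← henc]
    exact h i hi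

end Pool.Agent.L0h65.PC
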