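import Mathlib

set_option autoImplicit false

namespace Pool.Agent.L0h65.PC

open Function

/-- The group of the autotopisms of `h` fixing the values. -/
def AutH {Z : Type} (h : Z → Z → Z) : Subgroup (Equiv.Perm Z × Equiv.Perm Z) where
  carrier := {p | ∀ x w, h (p.1 x) (p.2 w) = h x w}
  mul_mem' := by
    intro a b ha hb x w
    simp only [Set.mem_ofPred_eq] at ha hb
    simp only [Prod.fst_mul, Prod.snd_mul, Equiv.Perm.mul_apply]
    rw [ha, hb]
  one_mem' := by intro x w; rfl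
  inv_mem' := by
    intro a ha x w
    simp only [Set.mem_ofPred_eq] at ha
    have := ha (a.1.symm x) (a.2.symm w)
    rw [Equiv.apply_symm_apply, Equiv.apply_symm_apply] at this
    exact this.symm

/-- Four Latin squares related as the four three-point lines of `M(K₄)` come from a group. -/
theorem group_labels {Z : Type} [Finite Z] [Nonempty Z]
    (f g h m : Z → Z → Z)
    (hf1 : ∀ y, Injective fun x => f x y) (hf2 : ∀ x, Injective (f x))
    (hg1 : ∀ w, Injective fun y => g y w) (hg2 : ∀ y, Injective (g y))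
    (hh1 : ∀ w, Injective fun x => h x w) (hh2 : ∀ x, Injective (h x))
    (H : ∀ x y w, m (f x y) (g y w) = h x w) :
    ∃ (G : Type) (_ : Group G) (A B C εf εg : Z → G),
      Nat.card G = Nat.card Z ∧ Bijective A ∧ Bijective B ∧ Bijective C ∧
      Injective εf ∧ Injective εg ∧
      (∀ x y, εf (f x y) = B y * A x) ∧ (∀ y w, εg (g y w) = B y * C w) ∧
      (∀ x w x1 w1, h x w = h x1 w1 ↔ (C w)⁻¹ * A x = (C w1)⁻¹ * A x1) := by
  classical
  obtain ⟨z0⟩ := ‹Nonempty Z›
  have bij : ∀ k : Z → Z, Injective k → Bijective k := fun k hk => Finite.injective_iff_bijective.1 hk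
  let F1 : Z → Equiv.Perm Z := fun y => Equiv.ofBijective (fun x => f x y) (bij _ (hf1 y))
  let G2 : Z → Equiv.Perm Z := fun y => Equiv.ofBijective (g y) (bij _ (hg2 y))
  have hF1 : ∀ y x, F1 y x = f x y := fun y x => rfl
  have hG2 : ∀ y w, G2 y w = g y w := fun y w => rfl
  let Γ := AutH h
  let η0 : Z → Equiv.Perm Z × Equiv.Perm Z :=
    fun y => ((F1 y).trans (F1 z0).symm, (G2 y).trans (G2 z0).symm)
  have hη0 : ∀ y, η0 y ∈ Γ := by
    intro y x w
    have h1 : f ((η0 y).1 x) z0 = f x y := by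
      show f ((F1 z0).symm (F1 y x)) z0 = F1 y x
      rw [← hF1 z0, Equiv.apply_symm_apply]
    have h2 : g z0 ((η0 y).2 w) = g y w := by
      show g z0 ((G2 z0).symm (G2 y w)) = G2 y w
      rw [← hG2 z0, Equiv.apply_symm_apply]
    rw [← H _ z0 _, h1, h2, H]
  let η : Z → Γ := fun y => ⟨η0 y, hη0 y⟩
  have semi1 : ∀ p : Γ, ∀ x, p.1.1 x = x → p = 1 := by
    intro p x hx
    have h1 : ∀ w, p.1.2 w = w := by
      intro w
      apply hh2 x
      have := p.2 x w
      rwa [hx] at this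
    have h2 : ∀ x', p.1.1 x' = x' := by
      intro x'
      apply hh1 z0
      have := p.2 x' z0
      rwa [h1] at this
    apply Subtype.ext
    apply Prod.ext
    · exact Equiv.ext h2
    · exact Equiv.ext h1
  have semi2 : ∀ p : Γ, ∀ w, p.1.2 w = w → p = 1 := by
    intro p w hw
    apply semi1 p z0
    apply hh1 w
    have := p.2 z0 w
    rwa [hw] at this
  let ev1 : Γ → Z := fun p => p.1.1 z0
  let ev2 : Γ → Z := fun p => p.1.2 z0
  have ev1_inj : Injective ev1 := by
    intro p p' hpp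
    have : p'⁻¹ * p = 1 := by
      apply semi1 _ z0
      show (p'⁻¹ * p).1.1 z0 = z0
      have h1 : (p'⁻¹ * p).1.1 z0 = p'.1.1⁻¹ (p.1.1 z0) := rfl
      rw [h1, Equiv.Perm.inv_eq_iff_eq]
      exact hpp
    exact (inv_mul_eq_one.1 this).symm
  have ev2_inj : Injective ev2 := by
    intro p p' hpp
    have : p'⁻¹ * p = 1 := by
      apply semi2 _ z0
      have h1 : (p'⁻¹ * p).1.2 z0 = p'.1.2⁻¹ (p.1.2 z0) := rfl
      rw [h1, Equiv.Perm.inv_eq_iff_eq]
      exact hpp
    exact (inv_mul_eq_one.1 this).symm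
  have ev1_surj : Surjective ev1 := by
    intro x
    obtain ⟨y, hy⟩ := (bij _ (hf2 z0)).2 (f x z0)
    refine ⟨η y, ?_⟩
    show (F1 z0).symm (F1 y z0) = x
    rw [Equiv.symm_apply_eq, hF1, hF1]
    exact hy
  let γe : Γ ≃ Z := Equiv.ofBijective ev1 ⟨ev1_inj, ev1_surj⟩
  have fin1 : Finite Γ := Finite.of_equiv Z γe.symm
  have hcard : Nat.card Γ = Nat.card Z := Nat.card_congr γe
  have ev2_bij : Bijective ev2 := (Nat.bijective_iff_injective_and_card ev2).mpr ⟨ev2_inj, hcard⟩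
  let τe : Γ ≃ Z := Equiv.ofBijective ev2 ev2_bij
  let γ : Z → Γ := fun x => γe.symm x
  let τ : Z → Γ := fun w => τe.symm w
  have hγ : ∀ x, (γ x).1.1 z0 = x := fun x => γe.apply_symm_apply x
  have hτ : ∀ w, (τ w).1.2 z0 = w := fun w => τe.apply_symm_apply w
  have hγu : ∀ (p : Γ) x, p.1.1 z0 = x → γ x = p := by
    intro p x hp
    rw [← hp]; exact γe.symm_apply_apply p
  have hτu : ∀ (p : Γ) x, p.1.2 z0 = x → τ x = p := by
    intro p x hp
    rw [← hp]; exact τe.symm_apply_apply p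
  have hηinj : Injective η := by
    intro y y' hyy
    have h1 := congrArg ev1 hyy
    have h2 : (F1 z0).symm (F1 y z0) = (F1 z0).symm (F1 y' z0) := h1
    have h3 := (F1 z0).symm.injective h2
    exact hf2 z0 h3
  have hηbij : Bijective η := (Nat.bijective_iff_injective_and_card η).mpr ⟨hηinj, hcard.symm⟩
  refine ⟨Γ, inferInstance, γ, η, τ, fun e => γ ((F1 z0).symm e), fun e => τ ((G2 z0).symm e), hcard,
    γe.symm.bijective, hηbij, τe.symm.bijective,
    γe.symm.injective.comp (F1 z0).symm.injective,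
    τe.symm.injective.comp (G2 z0).symm.injective, ?_, ?_, ?_⟩
  · intro x y
    apply hγu
    have : (η y * γ x).1.1 z0 = (F1 z0).symm (F1 y ((γ x).1.1 z0)) := rfl
    rw [this, hγ, hF1]
  · intro y w
    apply hτu
    have : (η y * τ w).1.2 z0 = (G2 z0).symm (G2 y ((τ w).1.2 z0)) := rfl
    rw [this, hτ, hG2]
  · intro x w x1 w1
    have key : ∀ x w, h (((τ w)⁻¹ * γ x).1.1 z0) z0 = h x w := by
      intro x w
      have h1 := ((τ w)⁻¹).2 ((γ x).1.1 z0) ((τ w).1.2 z0)
      have h2 : ((τ w)⁻¹).1.2 ((τ w).1.2 z0) = z0 := by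
        show (τ w).1.2⁻¹ ((τ w).1.2 z0) = z0
        simp
      rw [h2, hγ, hτ] at h1
      have h3 : ((τ w)⁻¹ * γ x).1.1 z0 = ((τ w)⁻¹).1.1 ((γ x).1.1 z0) := rfl
      rw [h3, hγ]
      exact h1
    constructor
    · intro hxw
      have h1 : ((τ w)⁻¹ * γ x).1.1 z0 = ((τ w1)⁻¹ * γ x1).1.1 z0 := by
        apply hh1 z0
        show h _ z0 = h _ z0
        rw [key, key, hxw]
      exact ev1_inj h1
    · intro h1
      rw [← key x w, ← key x1 w1, h1]

/-- The non-Fano configuration cannot be coded over an alphabet of even size. The coordinates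
are `0 = x, 1 = y, 2 = z, 3 = a, 4 = b, 5 = c, 6 = d`. -/
theorem no_nonfano_code {Z : Type} [Finite Z] (hZ : 0 < Nat.card Z) (heven : 2 ∣ Nat.card Z)
    (C : Set (Fin 7 → Z))
    (full : ∀ x y z, ∃ c ∈ C, c 0 = x ∧ c 1 = y ∧ c 2 = z)
    (fullb : ∀ x y w, ∃ c ∈ C, c 0 = x ∧ c 1 = y ∧ c 4 = w)
    (det : ∀ i j k : Fin 7, ({i, j, k} : Finset (Fin 7)) ∈
      ({{0, 1, 3}, {1, 2, 4}, {0, 2, 5}, {0, 4, 6}, {1, 5, 6}, {2, 3, 6}} : Finset (Finset (Fin 7))) →
      ∀ c ∈ C, ∀ c' ∈ C, c i = c' i → c j = c' j → c k = c' k)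
    (span : ∀ c ∈ C, ∀ c' ∈ C, c 3 = c' 3 → c 4 = c' 4 → c 5 = c' 5 → c 0 = c' 0) : False := by
  classical
  have hne : Nonempty Z := (Nat.card_pos_iff.mp hZ).1
  obtain ⟨z0⟩ := hne
  have bij : ∀ k : Z → Z, Injective k → Bijective k := fun k hk => Finite.injective_iff_bijective.1 hk
  choose K hKC hK0 hK1 hK2 using full
  choose L hLC hL0 hL1 hL4 using fullb
  -- the four functions: f (x,y) ↦ a, g (y,b) ↦ z, h (x,b) ↦ d, m (a,z) ↦ d
  let f : Z → Z → Z := fun x y => K x y z0 3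
  let g : Z → Z → Z := fun y w => L z0 y w 2
  let h : Z → Z → Z := fun x w => L x z0 w 6
  have hf : ∀ c ∈ C, c 3 = f (c 0) (c 1) := fun c hc =>
    det 0 1 3 (by decide) c hc _ (hKC _ _ _) (by rw [hK0]) (by rw [hK1])
  have hg : ∀ c ∈ C, c 2 = g (c 1) (c 4) := fun c hc =>
    det 1 4 2 (by decide) c hc _ (hLC _ _ _) (by rw [hL1]) (by rw [hL4])
  have hh : ∀ c ∈ C, c 6 = h (c 0) (c 4) := fun c hc =>
    det 0 4 6 (by decide) c hc _ (hLC _ _ _) (by rw [hL0]) (by rw [hL4])
  have f1 : ∀ y, Injective fun x => f x y := by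
    intro y x x' hxx
    have := det 1 3 0 (by decide) _ (hKC x y z0) _ (hKC x' y z0) (by rw [hK1, hK1]) hxx
    rwa [hK0, hK0] at this
  have f2 : ∀ x, Injective (f x) := by
    intro x y y' hyy
    have := det 0 3 1 (by decide) _ (hKC x y z0) _ (hKC x y' z0) (by rw [hK0, hK0]) hyy
    rwa [hK1, hK1] at this
  have g1 : ∀ w, Injective fun y => g y w := by
    intro w y y' hyy
    have := det 4 2 1 (by decide) _ (hLC z0 y w) _ (hLC z0 y' w) (by rw [hL4, hL4]) hyy
    rwa [hL1, hL1] at this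
  have g2 : ∀ y, Injective (g y) := by
    intro y w w' hww
    have := det 1 2 4 (by decide) _ (hLC z0 y w) _ (hLC z0 y w') (by rw [hL1, hL1]) hww
    rwa [hL4, hL4] at this
  have h1 : ∀ w, Injective fun x => h x w := by
    intro w x x' hxx
    have := det 4 6 0 (by decide) _ (hLC x z0 w) _ (hLC x' z0 w) (by rw [hL4, hL4]) hxx
    rwa [hL0, hL0] at this
  have h2 : ∀ x, Injective (h x) := by
    intro x w w' hww
    have := det 0 6 4 (by decide) _ (hLC x z0 w) _ (hLC x z0 w') (by rw [hL0, hL0]) hww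
    rwa [hL4, hL4] at this
  -- m
  have hm : ∃ m : Z → Z → Z, ∀ x y w, m (f x y) (g y w) = h x w := by
    refine ⟨fun e0 e1 => if H : ∃ c ∈ C, c 3 = e0 ∧ c 2 = e1 then (Classical.choose H) 6 else z0, ?_⟩
    intro x y w
    have e3 : (L x y w) 3 = f x y := by rw [hf _ (hLC x y w), hL0, hL1]
    have e2 : (L x y w) 2 = g y w := by rw [hg _ (hLC x y w), hL1, hL4]
    have e6 : (L x y w) 6 = h x w := by rw [hh _ (hLC x y w), hL0, hL4]
    have H : ∃ c ∈ C, c 3 = f x y ∧ c 2 = g y w := ⟨L x y w, hLC _ _ _, e3, e2⟩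
    simp only [dif_pos H]
    obtain ⟨q1, q2, q3⟩ := Classical.choose_spec H
    rw [← e6]
    exact det 3 2 6 (by decide) _ q1 _ (hLC x y w) (by rw [q2, e3]) (by rw [q3, e2])
  obtain ⟨m, hm⟩ := hm
  have : Nonempty Z := ⟨z0⟩
  obtain ⟨G, _, A, B, D, εf, εg, hcard, hA, hB, hD, hεf, hεg, k1, k2, k3⟩ :=
    group_labels f g h m f1 f2 g1 g2 h1 h2 hm
  -- labels on codewords
  let X : (Fin 7 → Z) → G := fun c => A (c 0)
  let Y : (Fin 7 → Z) → G := fun c => B (c 1)
  let W : (Fin 7 → Z) → G := fun c => εg (c 2)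
  have eW : ∀ c ∈ C, W c = Y c * D (c 4) := by
    intro c hc
    show εg (c 2) = _
    rw [hg c hc, k2]
  have eb : ∀ c ∈ C, D (c 4) = (Y c)⁻¹ * W c := by
    intro c hc
    rw [eW c hc]; group
  have ea : ∀ c ∈ C, εf (c 3) = Y c * X c := by
    intro c hc
    rw [hf c hc, k1]
  have ed : ∀ c ∈ C, ∀ c' ∈ C, c 6 = c' 6 →
      (W c)⁻¹ * Y c * X c = (W c')⁻¹ * Y c' * X c' := by
    intro c hc c' hc' h6
    have h7 : h (c 0) (c 4) = h (c' 0) (c' 4) := by rw [← hh c hc, ← hh c' hc', h6]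
    have h8 := (k3 _ _ _ _).mp h7
    rw [eb c hc, eb c' hc'] at h8
    have e1 : (W c)⁻¹ * Y c * X c = ((Y c)⁻¹ * W c)⁻¹ * A (c 0) := by
      show _ = ((Y c)⁻¹ * W c)⁻¹ * X c
      group
    have e2 : (W c')⁻¹ * Y c' * X c' = ((Y c')⁻¹ * W c')⁻¹ * A (c' 0) := by
      show _ = ((Y c')⁻¹ * W c')⁻¹ * X c'
      group
    rw [e1, e2, h8]
  -- K' : codeword with given labels
  have mk : ∀ s t u : G, (∃ z, εg z = u) → ∃ c ∈ C, X c = s ∧ Y c = t ∧ W c = u := by
    rintro s t u ⟨z, hz⟩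
    obtain ⟨x, hx⟩ := hA.2 s
    obtain ⟨y, hy⟩ := hB.2 t
    exact ⟨K x y z, hKC _ _ _, by show A _ = _; rw [hK0, hx], by show B _ = _; rw [hK1, hy],
      by show εg _ = _; rw [hK2, hz]⟩
  have finG : Finite G := by
    apply Nat.finite_of_card_ne_zero
    rw [hcard]; omega
  have εgbij : Bijective εg := (Nat.bijective_iff_injective_and_card εg).mpr ⟨hεg, hcard.symm⟩
  have mk' : ∀ s t u : G, ∃ c ∈ C, X c = s ∧ Y c = t ∧ W c = u := fun s t u =>
    mk s t u (εgbij.2 u)
  -- codewords with the same coordinate 5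
  have c5 : ∀ c ∈ C, ∀ c' ∈ C, c 5 = c' 5 →
      (∀ t : G, (W c)⁻¹ * t * X c = (W c')⁻¹ * t * X c') := by
    intro c hc c' hc' h5 t
    obtain ⟨e, he, he1, he2, he3⟩ := mk' (X c) t (W c)
    obtain ⟨e', he', he1', he2', he3'⟩ := mk' (X c') t (W c')
    have p1 : e 5 = c 5 := det 0 2 5 (by decide) e he c hc (hA.1 he1) (hεg he3)
    have p2 : e' 5 = c' 5 := det 0 2 5 (by decide) e' he' c' hc' (hA.1 he1') (hεg he3')
    have p3 : e 6 = e' 6 := det 1 5 6 (by decide) e he e' he' (hB.1 (he2.trans he2'.symm))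
      (by rw [p1, p2, h5])
    have := ed e he e' he' p3
    rwa [he1, he2, he3, he1', he2', he3'] at this
  -- commutativity
  have comm : ∀ s t : G, s * t = t * s := by
    obtain ⟨c, hc, hx, _, hw⟩ := mk' 1 1 1
    intro s t
    -- codeword with X = s and the same coordinate 5
    obtain ⟨x, hx'⟩ := hA.2 s
    -- the map z ↦ coordinate 5 for fixed x is injective, hence surjective
    have hs : Surjective (fun z => K x z0 z 5) := by
      apply (bij _ _).2
      intro z z' hzz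
      have := det 0 5 2 (by decide) _ (hKC x z0 z) _ (hKC x z0 z') (by rw [hK0, hK0]) hzz
      rwa [hK2, hK2] at this
    obtain ⟨z, hz⟩ := hs (c 5)
    have q := c5 c hc (K x z0 z) (hKC _ _ _) hz.symm
    have hX : X (K x z0 z) = s := by show A _ = _; rw [hK0, hx']
    have q1 := q 1
    have q2 := q t
    rw [hx, hw, hX] at q1 q2
    simp only [inv_one, one_mul, mul_one] at q1 q2
    -- q1 : 1 = W⁻¹ * s ; q2 : t = W⁻¹ * t * s
    have hW : W (K x z0 z) = s := by
      have := q1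
      rw [eq_comm, inv_mul_eq_one] at this
      exact this
    rw [hW] at q2
    calc s * t = s * (s⁻¹ * t * s) := by rw [← q2]
      _ = t * s := by group
  -- an element of order two
  obtain ⟨t, ht⟩ : ∃ t : G, orderOf t = 2 := by
    have : Fact (Nat.Prime 2) := ⟨Nat.prime_two⟩
    apply exists_prime_orderOf_dvd_card' 2
    rw [hcard]
    exact heven
  have ht2 : t * t = 1 := by
    have := pow_orderOf_eq_one t
    rw [ht, pow_two] at this
    exact this
  have ht1 : t ≠ 1 := by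
    rintro rfl
    rw [orderOf_one] at ht
    omega
  obtain ⟨c, hc, hx, hy, hw⟩ := mk' 1 1 1
  obtain ⟨c', hc', hx', hy', hw'⟩ := mk' t t t
  have e3 : c 3 = c' 3 := by
    apply hεf
    rw [ea c hc, ea c' hc', hx, hy, hx', hy', ht2, mul_one]
  have e4 : c 4 = c' 4 := by
    apply hD.1
    rw [eb c hc, eb c' hc', hy, hw, hy', hw']
    group
  have e5 : c 5 = c' 5 := by
    -- there is a codeword with x = c' 0 and coordinate 5 equal to c 5
    have hs : Surjective (fun z => K (c' 0) z0 z 5) := by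
      apply (bij _ _).2
      intro z z' hzz
      have := det 0 5 2 (by decide) _ (hKC (c' 0) z0 z) _ (hKC (c' 0) z0 z') (by rw [hK0, hK0]) hzz
      rwa [hK2, hK2] at this
    obtain ⟨z, hz⟩ := hs (c 5)
    have q := c5 c hc (K (c' 0) z0 z) (hKC _ _ _) hz.symm 1
    have hX : X (K (c' 0) z0 z) = t := by show A _ = _; rw [hK0]; exact hx'
    rw [hx, hw, hX] at q
    simp only [inv_one, mul_one] at q
    have hW : W (K (c' 0) z0 z) = t := by
      rw [eq_comm, inv_mul_eq_one] at q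
      exact q
    have hz2 : z = c' 2 := by
      have : εg z = εg (c' 2) := by
        have e : W (K (c' 0) z0 z) = εg z := by show εg _ = _; rw [hK2]
        rw [← e, hW]
        exact hw'.symm
      exact hεg this
    have hz' : K (c' 0) z0 z 5 = c 5 := hz
    rw [← hz']
    exact det 0 2 5 (by decide) _ (hKC _ _ _) c' hc' (by rw [hK0]) (by rw [hK2, hz2])
  have := span c hc c' hc' e3 e4 e5
  have h9 : X c = X c' := by show A _ = A _; rw [this]
  rw [hx, hx'] at h9
  exact ht1 h9.symm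

end Pool.Agent.L0h65.PC
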