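import Mathlib

set_option autoImplicit false

/-!
# Subsets of `Fin 7` as bit masks, for fast kernel computations with the non-Fano matroid
-/

namespace Pool.Agent.L0h65.PC

/-- The subset of `Fin 7` with the given bit mask. -/
def ofMask (m : ℕ) : Finset (Fin 7) := Finset.univ.filter fun i => m.testBit i = true

theorem mem_ofMask (m : ℕ) (i : Fin 7) : i ∈ ofMask m ↔ m.testBit i = true := by
  simp [ofMask]

theorem ofMask_or (m n : ℕ) : ofMask (m ||| n) = ofMask m ∪ ofMask n := by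
  ext i
  simp [mem_ofMask, Nat.testBit_or]

theorem ofMask_insert (m : ℕ) (e : Fin 7) : ofMask (m ||| 2 ^ (e : ℕ)) = insert e (ofMask m) := by
  ext i
  rw [Finset.mem_insert, mem_ofMask, mem_ofMask, Nat.testBit_or, Bool.or_eq_true,
    Nat.testBit_two_pow, decide_eq_true_eq, or_comm, ← Fin.ext_iff, eq_comm]

theorem exists_mask (A : Finset (Fin 7)) : ∃ m < 128, A = ofMask m := by
  induction A using Finset.induction_on with
  | empty => exact ⟨0, by norm_num, by ext i; simp [mem_ofMask]⟩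
  | insert a s _ ih =>
    obtain ⟨m, hm, rfl⟩ := ih
    refine ⟨m ||| 2 ^ (a : ℕ), ?_, (ofMask_insert m a).symm⟩
    have h1 : m < 2 ^ 7 := hm
    have h2 : 2 ^ (a : ℕ) < 2 ^ 7 := Nat.pow_lt_pow_right (by norm_num) a.2
    exact Nat.or_lt_two_pow h1 h2

/-- Number of ones among the last seven bits. -/
def pc (m : ℕ) : ℕ :=
  (m.testBit 0).toNat + (m.testBit 1).toNat + (m.testBit 2).toNat + (m.testBit 3).toNat +
    (m.testBit 4).toNat + (m.testBit 5).toNat + (m.testBit 6).toNat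

theorem card_ofMask (m : ℕ) : (ofMask m).card = pc m := by
  unfold ofMask pc
  rw [Finset.card_filter, Fin.sum_univ_seven]
  have h : ∀ b : Bool, (if b = true then 1 else 0) = b.toNat := by decide
  simp only [h]
  rfl

/-- The masks of the six lines. -/
def lineMasks : List ℕ := [11, 22, 37, 81, 98, 76]

theorem mem_lines (m : ℕ) (hm : m < 128) :
    ofMask m ∈ ({{0, 1, 3}, {1, 2, 4}, {0, 2, 5}, {0, 4, 6}, {1, 5, 6}, {2, 3, 6}} :
      Finset (Finset (Fin 7))) ↔ m ∈ lineMasks := by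
  revert m
  decide +kernel

/-- The rank function on masks. -/
def rm (m : ℕ) : ℕ := if pc m ≤ 2 then pc m else if m ∈ lineMasks then 2 else 3

theorem aug_mask : ∀ i j : Fin 128, pc i.1 = 2 → pc j.1 = 3 → j.1 ∉ lineMasks →
    ∃ e : Fin 7, j.1.testBit e.1 = true ∧ ¬ i.1.testBit e.1 = true ∧ (i.1 ||| 2 ^ e.1) ∉ lineMasks := by
  decide +kernel

theorem sub_mask : ∀ a : Fin 128, ∃ i : Fin 128, a.1 ||| i.1 = a.1 ∧ (pc i.1 ≤ 3 ∧ i.1 ∉ lineMasks) ∧
    pc i.1 = rm a.1 := by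
  decide +kernel

theorem sup_mask : ∀ a i : Fin 128, a.1 ||| i.1 = a.1 → (pc i.1 ≤ 3 ∧ i.1 ∉ lineMasks) →
    pc i.1 ≤ rm a.1 := by
  decide +kernel

theorem no_U25_mask : ∀ c d : Fin 128, c.1 &&& d.1 = 0 → pc (c.1 ||| d.1) = 2 →
    ∃ i : Fin 128, i.1 &&& (c.1 ||| d.1) = 0 ∧
      ¬ (rm (i.1 ||| c.1) = pc i.1 + rm c.1 ↔ pc i.1 ≤ 2) := by
  decide +kernel

theorem no_U35_mask : ∀ c d : Fin 128, c.1 &&& d.1 = 0 → pc (c.1 ||| d.1) = 2 →
    ∃ i : Fin 128, i.1 &&& (c.1 ||| d.1) = 0 ∧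
      ¬ (rm (i.1 ||| c.1) = pc i.1 + rm c.1 ↔ pc i.1 ≤ 3) := by
  decide +kernel

theorem disjoint_ofMask (m n : ℕ) (hm : m < 128) : Disjoint (ofMask m) (ofMask n) ↔ m &&& n = 0 := by
  rw [Finset.disjoint_left]
  constructor
  · intro h
    apply Nat.eq_of_testBit_eq
    intro i
    rw [Nat.testBit_and, Nat.zero_testBit]
    by_cases hi : i < 7
    · by_contra h2
      rw [Bool.not_eq_false, Bool.and_eq_true] at h2
      exact h ((mem_ofMask m ⟨i, hi⟩).2 h2.1) ((mem_ofMask n ⟨i, hi⟩).2 h2.2)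
    · have : m.testBit i = false := by
        apply Nat.testBit_lt_two_pow
        have : 2 ^ 7 ≤ 2 ^ i := Nat.pow_le_pow_right (by norm_num) (by omega)
        omega
      rw [this, Bool.false_and]
  · intro h i h1 h2
    rw [mem_ofMask] at h1 h2
    have h3 : (m &&& n).testBit i = true := by rw [Nat.testBit_and, h1, h2]; rfl
    rw [h] at h3
    simp at h3

end Pool.Agent.L0h65.PC
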